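import Mathlib

/-!
# Poset tournaments are not chi-bounded

We show that there are poset tournaments of clique number at most `2` and arbitrarily large
dichromatic number.

The idea: let `D` be a two-dimensional poset (points in the plane with the dominance order) whose
cover graph (Hasse diagram) has large chromatic number, and let `P` be `D` without its cover
relations.  `P` is again transitive.  The tournament on the points which agrees with the reversed
`x`-order exactly on the comparable pairs of `P` is a poset tournament, and its backedge graph with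
respect to the decreasing `y`-order is exactly the cover graph of `D`, which is triangle-free.
-/

open Function

namespace Pool.Agent.Results.MP_265233_co.NotChiBounded

/-- A digraph is a tournament if it has no loops and, for any two distinct vertices, exactly one
of the two possible arcs between them is present. -/
def IsTournament {V : Type} (T : Digraph V) : Prop :=
  (∀ v, ¬ T.Adj v v) ∧ ∀ v w, v ≠ w → (T.Adj v w ↔ ¬ T.Adj w v)

/-- A tournament is a poset tournament if for some total order of its vertices,
`u < v < w`, `u → v` and `v → w` imply `u → w`. -/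
def IsPosetTournament {V : Type} (T : Digraph V) : Prop :=
  IsTournament T ∧ ∃ _ : LinearOrder V,
    ∀ u v w : V, u < v → v < w → T.Adj u v → T.Adj v w → T.Adj u w

/-- The set `S` of vertices induces an acyclic subdigraph of `T`: there is no closed directed walk
of positive length all of whose vertices are in `S`. -/
def IsAcyclicOn {V : Type} (T : Digraph V) (S : Set V) : Prop :=
  ∀ v, ¬ Relation.TransGen (fun a b => a ∈ S ∧ b ∈ S ∧ T.Adj a b) v v

/-- The dichromatic number: the least `k` such that the vertices can be coloured with `k` colours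
so that every colour class induces an acyclic subdigraph. -/
noncomputable def dichromaticNumber {V : Type} (T : Digraph V) : ℕ :=
  sInf {k : ℕ | ∃ c : V → Fin k, ∀ i : Fin k, IsAcyclicOn T {v | c v = i}}

/-- The backedge graph of `T` with respect to the total order `o`: `v` and `w` are adjacent when
`v < w` and `w → v`, or `w < v` and `v → w`. -/
def backedgeGraph {V : Type} (T : Digraph V) (o : LinearOrder V) : SimpleGraph V :=
  SimpleGraph.fromRel (fun v w => o.lt v w ∧ T.Adj w v)

/-- The clique number of a digraph: the least clique number of its backedge graphs, over all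
total orders of the vertices. -/
noncomputable def cliqueNumber {V : Type} (T : Digraph V) : ℕ :=
  sInf {k : ℕ | ∃ o : LinearOrder V, (backedgeGraph T o).cliqueNum = k}

/-! ### Planar point sets whose cover graph has large chromatic number -/

/-- `v` covers `u` in the dominance order of the points `(x v, y v)`. -/
def Cov {V α β : Type} [LinearOrder α] [LinearOrder β] (x : V → α) (y : V → β) (u v : V) : Prop :=
  x u < x v ∧ y u < y v ∧ ∀ w, x u < x w → x w < x v → y u < y w → y w < y v → False

/-- There is a finite planar point set every `k`-colouring of which has a monochromatic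
cover pair. -/
def Claim (k : ℕ) : Prop :=
  ∃ (V α β : Type) (_ : Fintype V) (_ : LinearOrder α) (_ : LinearOrder β)
    (x : V → α) (y : V → β), Injective x ∧ Injective y ∧
      ∀ c : V → Fin k, ∃ u v, Cov x y u v ∧ c u = c v

section Step

variable {S α β : Type} [LinearOrder α] [LinearOrder β] (x : S → α) (y : S → β) (M : ℕ)

/-- The strictly increasing (with respect to `x`) maps from `S` to the `M` columns. -/
abbrev Fam : Type := {f : S → Fin M // ∀ s t, x s < x t → f s < f t}

variable {x} {M} {N : ℕ} (e : Fam x M ≃ Fin N)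

/-- The new heights. -/
def newY : Fin M ⊕ (Fam x M × S) → (Fin M)ᵒᵈ ⊕ₗ (Fin N ×ₗ β) :=
  Sum.elim (fun a => Sum.inlₗ (OrderDual.toDual a)) (fun p => Sum.inrₗ (toLex (e p.1, y p.2)))

/-- The new abscissae. -/
def newX : Fin M ⊕ (Fam x M × S) → Fin M ×ₗ WithBot ((Fin M)ᵒᵈ ⊕ₗ (Fin N ×ₗ β))ᵒᵈ :=
  Sum.elim (fun a => toLex (a, ⊥))
    (fun p => toLex (p.1.1 p.2, ((OrderDual.toDual (newY y e (Sum.inr p)) :
      ((Fin M)ᵒᵈ ⊕ₗ (Fin N ×ₗ β))ᵒᵈ) : WithBot _)))

lemma newY_inl_lt_inr (a : Fin M) (p : Fam x M × S) :
    newY y e (Sum.inl a) < newY y e (Sum.inr p) := by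
  simp [newY]

lemma newY_inr_lt_inr (p q : Fam x M × S) :
    newY y e (Sum.inr p) < newY y e (Sum.inr q) ↔
      e p.1 < e q.1 ∨ (e p.1 = e q.1 ∧ y p.2 < y q.2) := by
  simp [newY, Prod.Lex.toLex_lt_toLex]

lemma newX_inl_lt_inl (a b : Fin M) :
    newX y e (Sum.inl a) < newX y e (Sum.inl b) ↔ a < b := by
  simp [newX, Prod.Lex.toLex_lt_toLex]

lemma newX_inl_lt_inr (a : Fin M) (p : Fam x M × S) :
    newX y e (Sum.inl a) < newX y e (Sum.inr p) ↔ a ≤ p.1.1 p.2 := by
  simp [newX, Prod.Lex.toLex_lt_toLex, le_iff_lt_or_eq]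

lemma newX_inr_lt_inl (a : Fin M) (p : Fam x M × S) :
    newX y e (Sum.inr p) < newX y e (Sum.inl a) ↔ p.1.1 p.2 < a := by
  simp [newX, Prod.Lex.toLex_lt_toLex]

lemma newX_inr_lt_inr (p q : Fam x M × S) :
    newX y e (Sum.inr p) < newX y e (Sum.inr q) ↔
      p.1.1 p.2 < q.1.1 q.2 ∨
        (p.1.1 p.2 = q.1.1 q.2 ∧ newY y e (Sum.inr q) < newY y e (Sum.inr p)) := by
  simp [newX, Prod.Lex.toLex_lt_toLex]

lemma newY_injective (hy : Injective y) : Injective (newY y e) := by
  rintro (a | p) (b | q) h
  · simpa [newY] using h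
  · exact absurd h (newY_inl_lt_inr y e a q).ne
  · exact absurd h (newY_inl_lt_inr y e b p).ne'
  · have h' : (e p.1, y p.2) = (e q.1, y q.2) := by simpa [newY] using h
    simp only [Prod.mk.injEq, EmbeddingLike.apply_eq_iff_eq] at h'
    have : p = q := Prod.ext h'.1 (hy h'.2)
    rw [this]

lemma newX_injective (hy : Injective y) : Injective (newX y e) := by
  rintro (a | p) (b | q) h
  · simpa [newX] using h
  · simp [newX] at h
  · simp [newX] at h
  · have h' : newY y e (Sum.inr p) = newY y e (Sum.inr q) := by
      simp only [newX, Sum.elim_inr, EmbeddingLike.apply_eq_iff_eq, Prod.mk.injEq,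
        WithBot.coe_inj] at h
      exact h.2
    exact newY_injective y e hy h'

lemma Fam.injective (hx : Injective x) (f : Fam x M) : Injective f.1 := by
  intro s t h
  by_contra hst
  rcases lt_or_gt_of_ne (fun h' => hst (hx h')) with h' | h'
  · exact absurd h (f.2 _ _ h').ne
  · exact absurd h (f.2 _ _ h').ne'

lemma Fam.lt_iff (hx : Injective x) (f : Fam x M) (s t : S) : f.1 s < f.1 t ↔ x s < x t := by
  constructor
  · intro h
    by_contra hst
    rcases lt_or_eq_of_le (not_lt.mp hst) with h' | h'
    · exact absurd h (f.2 _ _ h').asymm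
    · rw [hx h'] at h
      exact lt_irrefl _ h
  · exact f.2 s t

/-- The column points are covered by the points of the copies in their column. -/
lemma cov_col (f : Fam x M) (s : S) :
    Cov (newX y e) (newY y e) (Sum.inl (f.1 s)) (Sum.inr (f, s)) := by
  refine ⟨(newX_inl_lt_inr y e _ _).2 le_rfl, newY_inl_lt_inr y e _ _, ?_⟩
  rintro (b | p) h1 h2 h3 h4
  · rw [newX_inl_lt_inl] at h1
    rw [newX_inl_lt_inr] at h2
    exact absurd h1 (not_lt.mpr h2)
  · rw [newX_inl_lt_inr] at h1
    rw [newX_inr_lt_inr] at h2
    rcases h2 with h2 | h2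
    · exact absurd h2 (not_lt.mpr h1)
    · exact lt_asymm h4 h2.2

/-- The cover relations of `S` remain cover relations in each copy. -/
lemma cov_copy (hx : Injective x) (f : Fam x M) {s t : S} (h : Cov x y s t) :
    Cov (newX y e) (newY y e) (Sum.inr (f, s)) (Sum.inr (f, t)) := by
  obtain ⟨h1, h2, h3⟩ := h
  refine ⟨(newX_inr_lt_inr y e _ _).2 (Or.inl (f.2 _ _ h1)),
    (newY_inr_lt_inr y e _ _).2 (Or.inr ⟨rfl, h2⟩), ?_⟩
  rintro (b | ⟨g, r⟩) k1 k2 k3 k4
  · exact lt_asymm k3 (newY_inl_lt_inr y e _ _)
  · rw [newY_inr_lt_inr] at k3 k4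
    have hfg : g = f := by
      apply e.injective
      apply le_antisymm
      · rcases k4 with k4 | k4
        · exact k4.le
        · exact k4.1.le
      · rcases k3 with k3 | k3
        · exact k3.le
        · exact k3.1.le
    subst hfg
    simp only [lt_self_iff_false, true_and, false_or] at k3 k4
    rw [newX_inr_lt_inr] at k1 k2
    have m1 : x s < x r := by
      rcases k1 with k1 | k1
      · exact (Fam.lt_iff hx g s r).1 k1
      · have := Fam.injective hx g k1.1
        simp only at this
        rw [this] at k3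
        exact absurd k3 (lt_irrefl _)
    have m2 : x r < x t := by
      rcases k2 with k2 | k2
      · exact (Fam.lt_iff hx g r t).1 k2
      · have := Fam.injective hx g k2.1
        simp only at this
        rw [this] at k4
        exact absurd k4 (lt_irrefl _)
    exact h3 r m1 m2 k3 k4

end Step

lemma claim_zero : Claim 0 :=
  ⟨Fin 1, ℕ, ℕ, inferInstance, inferInstance, inferInstance, fun v => v.1, fun v => v.1,
    Fin.val_injective, Fin.val_injective, fun c => (c 0).elim0⟩

lemma claim_succ (k : ℕ) (h : Claim k) : Claim (k + 1) := by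
  classical
  obtain ⟨S, α, β, _, _, _, x, y, hx, hy, hc⟩ := h
  set n := Fintype.card S with hn
  set M := (k + 1) * n with hM
  let e : Fam x M ≃ Fin (Fintype.card (Fam x M)) := Fintype.equivFin _
  refine ⟨Fin M ⊕ (Fam x M × S), _, _, inferInstance, inferInstance, inferInstance,
    newX y e, newY y e, newX_injective y e hy, newY_injective y e hy, ?_⟩
  intro c
  -- a monochromatic set of `n` columns
  obtain ⟨i, hi⟩ : ∃ i : Fin (k + 1),
      n ≤ (Finset.univ.filter (fun a : Fin M => c (Sum.inl a) = i)).card := by
    apply Fintype.exists_le_card_fiber_of_mul_le_card (fun a : Fin M => c (Sum.inl a))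
    simp [hM]
  obtain ⟨A, hA, hAn⟩ := Finset.exists_subset_card_eq hi
  -- the increasing map with image `A`
  let _ : LinearOrder S := LinearOrder.lift' x hx
  let g : Fin n ≃o S := Fintype.orderIsoFinOfCardEq S rfl
  let f : Fam x M := ⟨fun s => A.orderEmbOfFin hAn (g.symm s), fun s t hst => by
    have : s < t := hst
    simpa using this⟩
  have hf : ∀ s, c (Sum.inl (f.1 s)) = i := by
    intro s
    have : f.1 s ∈ A := Finset.orderEmbOfFin_mem A hAn _
    simpa using hA this
  by_cases hex : ∃ s, c (Sum.inr (f, s)) = i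
  · obtain ⟨s, hs⟩ := hex
    exact ⟨_, _, cov_col y e f s, by rw [hf, hs]⟩
  · push Not at hex
    obtain ⟨s, t, hst, hcol⟩ := hc (fun s => (finSuccAboveEquiv i).symm ⟨c (Sum.inr (f, s)), hex s⟩)
    refine ⟨_, _, cov_copy y e hx f hst, ?_⟩
    have := (finSuccAboveEquiv i).symm.injective hcol
    simpa using this

lemma claim_all (k : ℕ) : Claim k := by
  induction k with
  | zero => exact claim_zero
  | succ k ih => exact claim_succ k ih

/-! ### The tournament -/

section Tournament

variable {V α β : Type} [LinearOrder α] [LinearOrder β] (x : V → α) (y : V → β)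

/-- The dominance order without its cover relations. -/
def NonCov (u v : V) : Prop := x u < x v ∧ y u < y v ∧ ¬ Cov x y u v

lemma nonCov_trans {u v w : V} (h1 : x u < x v ∧ y u < y v) (h2 : x v < x w ∧ y v < y w) :
    NonCov x y u w :=
  ⟨h1.1.trans h2.1, h1.2.trans h2.2, fun h => h.2.2 v h1.1 h2.1 h1.2 h2.2⟩

/-- The tournament: for `x u < x v`, the arc is `v → u` if `(u, v)` is a comparable pair of the
dominance order which is not a cover relation, and `u → v` otherwise. -/
def tour : Digraph V where
  Adj u v := (x u < x v ∧ ¬ NonCov x y u v) ∨ (x v < x u ∧ NonCov x y v u)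

lemma tour_isTournament (hx : Injective x) : IsTournament (tour x y) := by
  refine ⟨fun v h => ?_, fun v w hvw => ?_⟩
  · rcases h with h | h <;> exact lt_irrefl _ h.1
  · rcases lt_or_gt_of_ne (fun h' => hvw (hx h')) with h | h
    · simp [tour, h, h.asymm]
    · simp [tour, h, h.asymm]

lemma tour_isPosetTournament (hx : Injective x) : IsPosetTournament (tour x y) := by
  refine ⟨tour_isTournament x y hx,
    LinearOrder.lift' (fun v => OrderDual.toDual (x v)) (fun u v h => hx (by simpa using h)), ?_⟩
  intro u v w huv hvw h1 h2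
  have huv' : x v < x u := huv
  have hvw' : x w < x v := hvw
  have h1' : NonCov x y v u := by
    rcases h1 with h1 | h1
    · exact absurd h1.1 huv'.asymm
    · exact h1.2
  have h2' : NonCov x y w v := by
    rcases h2 with h2 | h2
    · exact absurd h2.1 hvw'.asymm
    · exact h2.2
  exact Or.inr ⟨hvw'.trans huv', nonCov_trans x y ⟨h2'.1, h2'.2.1⟩ ⟨h1'.1, h1'.2.1⟩⟩

/-- The order by decreasing height. -/
@[reducible] def yOrder (hy : Injective y) : LinearOrder V :=
  LinearOrder.lift' (fun v => OrderDual.toDual (y v)) (fun u v h => hy (by simpa using h))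

/-- The backedges for the order by decreasing height are the cover relations. -/
lemma back_iff (hy : Injective y) (u v : V) :
    ((yOrder y hy).lt u v ∧ (tour x y).Adj v u) ↔ Cov x y v u := by
  constructor
  · rintro ⟨h, h'⟩
    have h : y v < y u := h
    rcases h' with h' | h'
    · by_contra hc
      exact h'.2 ⟨h'.1, h, hc⟩
    · exact absurd h'.2.2.1 h.asymm
  · intro h
    exact ⟨h.2.1, Or.inl ⟨h.1, fun h' => h'.2.2 h⟩⟩

lemma back_adj (hy : Injective y) (u v : V) :
    (backedgeGraph (tour x y) (yOrder y hy)).Adj u v ↔ Cov x y u v ∨ Cov x y v u := by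
  unfold backedgeGraph
  rw [SimpleGraph.fromRel_adj, back_iff x y hy, back_iff x y hy]
  constructor
  · rintro ⟨-, h | h⟩
    · exact Or.inr h
    · exact Or.inl h
  · rintro (h | h)
    · exact ⟨fun h' => by subst h'; exact lt_irrefl _ h.1, Or.inr h⟩
    · exact ⟨fun h' => by subst h'; exact lt_irrefl _ h.1, Or.inl h⟩

lemma cov_no_trans {u v w : V} (h1 : Cov x y u v) (h2 : Cov x y v w) : ¬ Cov x y u w :=
  fun h => h.2.2 v h1.1 h2.1 h1.2.1 h2.2.1

lemma back_cliqueFree (hy : Injective y) :
    (backedgeGraph (tour x y) (yOrder y hy)).CliqueFree 3 := by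
  classical
  intro s hs
  rw [SimpleGraph.is3Clique_iff] at hs
  obtain ⟨a, b, c, hab, hac, hbc, -⟩ := hs
  rw [back_adj x y hy] at hab hac hbc
  have key : ∀ {u v : V}, Cov x y u v → Cov x y v u → False :=
    fun h h' => lt_asymm h.1 h'.1
  rcases hab with hab | hab <;> rcases hac with hac | hac <;> rcases hbc with hbc | hbc
  · exact cov_no_trans x y hab hbc hac
  · exact cov_no_trans x y hac hbc hab
  · exact lt_asymm (hab.1.trans hbc.1) hac.1
  · exact cov_no_trans x y hac hab hbc
  · exact cov_no_trans x y hab hac hbc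
  · exact lt_asymm (hac.1.trans hbc.1) hab.1
  · exact cov_no_trans x y hbc hac hab
  · exact cov_no_trans x y hbc hab hac

lemma tour_cliqueNumber [Fintype V] (hy : Injective y) :
    cliqueNumber (tour x y) ≤ 2 := by
  classical
  have h1 : (backedgeGraph (tour x y) (yOrder y hy)).cliqueNum ≤ 2 := by
    by_contra hcon
    push Not at hcon
    obtain ⟨s, hs⟩ := (backedgeGraph (tour x y) (yOrder y hy)).exists_isNClique_cliqueNum
    exact (back_cliqueFree x y hy).mono hcon s hs
  exact le_trans (Nat.sInf_le ⟨yOrder y hy, rfl⟩) h1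

/-- In an acyclic set no point covers a point and is covered by a point of the set. -/
lemma acyclic_cov {S : Set V} (hS : IsAcyclicOn (tour x y) S) {u v w : V}
    (hu : u ∈ S) (hv : v ∈ S) (hw : w ∈ S) (h1 : Cov x y u v) (h2 : Cov x y v w) : False := by
  have a1 : (tour x y).Adj u v := Or.inl ⟨h1.1, fun h => h.2.2 h1⟩
  have a2 : (tour x y).Adj v w := Or.inl ⟨h2.1, fun h => h.2.2 h2⟩
  have a3 : (tour x y).Adj w u :=
    Or.inr ⟨h1.1.trans h2.1, nonCov_trans x y ⟨h1.1, h1.2.1⟩ ⟨h2.1, h2.2.1⟩⟩
  exact hS u (((Relation.TransGen.single ⟨hu, hv, a1⟩).tail ⟨hv, hw, a2⟩).tail ⟨hw, hu, a3⟩)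

end Tournament

/-- A tournament on a finite type has a dicolouring, so that the dichromatic number is attained. -/
lemma exists_dicolouring {V : Type} [Fintype V] (T : Digraph V) (hT : IsTournament T) :
    ∃ c : V → Fin (dichromaticNumber T), ∀ i, IsAcyclicOn T {v | c v = i} := by
  classical
  have hne : {k : ℕ | ∃ c : V → Fin k, ∀ i : Fin k, IsAcyclicOn T {v | c v = i}}.Nonempty := by
    refine ⟨Fintype.card V, Fintype.equivFin V, fun i v h => ?_⟩
    obtain ⟨w, hw, -⟩ := Relation.TransGen.head'_iff.1 h
    have : v = w := (Fintype.equivFin V).injective (hw.1.trans hw.2.1.symm)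
    subst this
    exact hT.1 _ hw.2.2
  exact Nat.sInf_mem hne

/-- **Poset tournaments are not chi-bounded**: for every `m` there is a finite poset tournament
with clique number at most `2` and dichromatic number at least `m`.  (So no function `f` satisfies
`dichromaticNumber T ≤ f (cliqueNumber T)` for all poset tournaments `T`.) -/
theorem result : ∀ m : ℕ, ∃ (n : ℕ) (T : Digraph (Fin n)),
    IsPosetTournament T ∧ cliqueNumber T ≤ 2 ∧ m ≤ dichromaticNumber T := by
  classical
  intro m
  obtain ⟨W, α, β, _, _, _, x₀, y₀, hx₀, hy₀, hc⟩ := claim_all (m * 2)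
  let e : W ≃ Fin (Fintype.card W) := Fintype.equivFin W
  let x : Fin (Fintype.card W) → α := x₀ ∘ e.symm
  let y : Fin (Fintype.card W) → β := y₀ ∘ e.symm
  have hx : Injective x := hx₀.comp e.symm.injective
  have hy : Injective y := hy₀.comp e.symm.injective
  refine ⟨_, tour x y, tour_isPosetTournament x y hx, tour_cliqueNumber x y hy, ?_⟩
  by_contra hlt
  push Not at hlt
  obtain ⟨c, hcol⟩ := exists_dicolouring (tour x y) (tour_isTournament x y hx)
  -- `up v`: some point of the class of `v` covers `v`
  let up : Fin (Fintype.card W) → Prop := fun v => ∃ w, Cov x y v w ∧ c w = c v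
  let c₂ : W → Fin m × Fin 2 := fun w =>
    (Fin.castLE hlt.le (c (e w)), if up (e w) then 0 else 1)
  obtain ⟨u, v, huv, heq⟩ := hc (fun w => finProdFinEquiv (c₂ w))
  have heq' : c₂ u = c₂ v := finProdFinEquiv.injective heq
  have hcuv : c (e u) = c (e v) := by
    have := congrArg Prod.fst heq'
    simpa [c₂] using this
  have hcov : Cov x y (e u) (e v) := by
    refine ⟨by simpa [x] using huv.1, by simpa [y] using huv.2.1, fun w h1 h2 h3 h4 => ?_⟩
    exact huv.2.2 (e.symm w) (by simpa [x] using h1) (by simpa [x] using h2)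
      (by simpa [y] using h3) (by simpa [y] using h4)
  have hup : up (e u) := ⟨e v, hcov, hcuv.symm⟩
  have hup' : up (e v) := by
    by_contra hno
    have := congrArg Prod.snd heq'
    simp [c₂, hup, hno] at this
  obtain ⟨w, hw, hcw⟩ := hup'
  exact acyclic_cov x y (hcol (c (e v))) (S := {z | c z = c (e v)}) hcuv rfl hcw hcov hw

end Pool.Agent.Results.MP_265233_co.NotChiBounded
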